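import Pool.Agent.helper79.SX.Spec

/-!
# Project sx: module ELL (block sums)
-/

set_option autoImplicit false

open Finset ArithmeticFunction

namespace Pool.Agent.SX

theorem ELL_aux {α κ : ℝ} {A K : ℕ} (hα : 0 ≤ α) (hκ : 0 ≤ κ) (hA : (A : ℝ) = 1000 * α)
    (hK : (K : ℝ) = 1000 * κ) {h0 h l G : ℕ} {x : ℝ} (h180 : 180 ≤ h0) (hh : h0 ≤ h)
    (hx : x ≤ (G : ℝ) / 10 ^ 9)
    (hc : 2 ^ 45 * (A * G * h0 + K * 14426950500) ≤ l * (10 ^ 12 * h0)) :
    2 * (α * x + κ * (14.4269505 / h)) ≤ (l : ℝ) / 2 ^ 44 := by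
  have hc' : (2 : ℝ) ^ 45 * ((A : ℝ) * G * h0 + K * 14426950500) ≤ l * (10 ^ 12 * h0) := by
    exact_mod_cast hc
  rw [hA, hK] at hc'
  have h00 : (0 : ℝ) < h0 := by
    have : (180 : ℝ) ≤ h0 := by exact_mod_cast h180
    linarith
  have h1 : (14.4269505 : ℝ) / h ≤ 14.4269505 / h0 := by
    have : (h0 : ℝ) ≤ h := by exact_mod_cast hh
    gcongr
  have h2 : 2 * (α * x + κ * (14.4269505 / h)) ≤
      2 * (α * ((G : ℝ) / 10 ^ 9) + κ * (14.4269505 / h0)) := by
    gcongr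
  refine h2.trans ?_
  rw [le_div_iff₀ (by positivity)]
  have h3 : 2 * (α * ((G : ℝ) / 10 ^ 9) + κ * (14.4269505 / h0)) * 2 ^ 44 =
      (2 : ℝ) ^ 45 * ((1000 * α) * G * h0 + (1000 * κ) * 14426950500) / (10 ^ 12 * h0) := by
    field_simp
    ring
  rw [h3, div_le_iff₀ (by positivity)]
  exact hc'

theorem ELL (hSIG : SIG_stmt) (hLPA : LPA_stmt) (hLPM : LPM_stmt) (hLGQ : LGQ_stmt) : ELL_stmt := by
  intro q h0 h h' l hq1 hq2 h180 hh hr hc
  have hh0 : 0 < h := by omega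
  have hle : h ≤ h' := by
    by_contra hcon
    push Not at hcon
    have h1 : h' * (9 + q) ≤ h * (9 + q) := Nat.mul_le_mul_right _ hcon.le
    have h2 : h * (10 + q) = h * (9 + q) + h := by ring
    omega
  have hratio : (h' : ℝ) / h = ((10 : ℝ) + q) / (9 + q) := by
    have h1 : (h' : ℝ) * (9 + q) = h * (10 + q) := by exact_mod_cast hr
    have h2 : (0 : ℝ) < h := by exact_mod_cast hh0
    rw [div_eq_div_iff h2.ne' (by positivity), h1]
    ring
  have hlog : Real.log ((h' : ℝ) / h) ≤ (LG q : ℝ) / 10 ^ 9 := by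
    rw [hratio]
    exact hLGQ q hq1 hq2
  unfold chkEll at hc
  rw [Bool.or_eq_true, Nat.ble_eq, Nat.ble_eq] at hc
  rcases hc with hc | hc
  · have h1 := hSIG (1087 / 1000) (170 / 1000) (by norm_num) (by norm_num) hLPA h h'
      (h180.trans hh) hle
    exact h1.trans (ELL_aux (A := 1087) (K := 170) (by norm_num) (by norm_num) (by norm_num)
      (by norm_num) h180 hh hlog hc)
  · have h1 := hSIG 1 (1090 / 1000) (by norm_num) (by norm_num) hLPM h h'
      (h180.trans hh) hle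
    exact h1.trans (ELL_aux (A := 1000) (K := 1090) (by norm_num) (by norm_num) (by norm_num)
      (by norm_num) h180 hh hlog hc)

end Pool.Agent.SX
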