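import Pool.Agent.helper79.SX.Spec

/-!
# Project sx: module PC1 (lower bound for the number of elements counted)
-/

set_option autoImplicit false

open Finset ArithmeticFunction

namespace Pool.Agent.SX

theorem PC1_swap {α : Type} (s : Finset ℕ) (l : List α) (f : ℕ → α → ℝ) :
    ∑ p ∈ s, (l.map (f p)).sum = (l.map fun t => ∑ p ∈ s, f p t).sum := by
  induction l with
  | nil => simp
  | cons t l ih =>
    simp only [List.map_cons, List.sum_cons]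
    rw [Finset.sum_add_distrib, ih]

/-- the size condition. -/
theorem PC1_size {u Y κ n : ℕ} {X : ℝ} (hκ : 34 ≤ κ * u) (hκY : κ ≤ 2 * Y)
    (h1 : 2 ^ (Y * u) < (n + 1) ^ 10) (hX : ((n : ℝ) + 1) ^ 20 ≤ 2 ^ 34 * X ^ 10) (hX0 : 0 < X) :
    (2 : ℝ) ^ ((2 * Y - κ) * u) ≤ X ^ 10 := by
  have h2 : (2 : ℝ) ^ (Y * u) ≤ ((n : ℝ) + 1) ^ 10 := by exact_mod_cast h1.le
  have h3 : ((2 : ℝ) ^ (Y * u)) ^ 2 ≤ ((n : ℝ) + 1) ^ 20 := by
    calc ((2 : ℝ) ^ (Y * u)) ^ 2 ≤ (((n : ℝ) + 1) ^ 10) ^ 2 := by gcongr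
      _ = ((n : ℝ) + 1) ^ 20 := by rw [← pow_mul]
  have h4 : (2 : ℝ) ^ 34 ≤ 2 ^ (κ * u) := pow_le_pow_right₀ (by norm_num) hκ
  have h5 : (2 : ℝ) ^ ((2 * Y - κ) * u) * 2 ^ (κ * u) = ((2 : ℝ) ^ (Y * u)) ^ 2 := by
    rw [← pow_add, ← pow_mul]
    congr 1
    have : (2 * Y - κ) * u + κ * u = (2 * Y - κ + κ) * u := by ring
    rw [this, Nat.sub_add_cancel hκY]
    ring
  have h6 : (2 : ℝ) ^ ((2 * Y - κ) * u) * 2 ^ (κ * u) ≤ X ^ 10 * 2 ^ (κ * u) := by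
    rw [h5]
    calc ((2 : ℝ) ^ (Y * u)) ^ 2 ≤ ((n : ℝ) + 1) ^ 20 := h3
      _ ≤ 2 ^ 34 * X ^ 10 := hX
      _ ≤ 2 ^ (κ * u) * X ^ 10 := by gcongr
      _ = X ^ 10 * 2 ^ (κ * u) := mul_comm _ _
  exact le_of_mul_le_mul_right h6 (by positivity)

/-- membership in `Rg`. -/
theorem PC1_Rg {n h p : ℕ} : p ∈ Rg n h ↔ p ≤ n ∧ p.Prime ∧ 2 ^ h ≤ p ^ 10 := by
  unfold Rg
  rw [Finset.mem_filter, Finset.mem_range, Nat.lt_succ_iff]

theorem PC1_ge7 {h p : ℕ} (h28 : 28 ≤ h) (hp : 2 ^ h ≤ p ^ 10) : 7 ≤ p := by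
  by_contra hcon
  push Not at hcon
  have h1 : p ^ 10 ≤ 6 ^ 10 := Nat.pow_le_pow_left (by omega) 10
  have h2 : (2 : ℕ) ^ 28 ≤ 2 ^ h := Nat.pow_le_pow_right (by norm_num) h28
  have h3 : (6 : ℕ) ^ 10 < 2 ^ 28 := by norm_num
  omega

/-- the block of a prime. -/
theorem PC1_blk {u a Y n p : ℕ} {bl : List (ℕ × ℕ × ℕ)} (hu : 1 ≤ u) (ha : 30 ≤ a)
    (hY : Y < 300) (h2 : (n + 1) ^ 10 ≤ 2 ^ ((Y + 1) * u)) (hbl : BlkOK u a bl)
    (hp : p ∈ Rg n (a * u)) : ∃ t ∈ bl, a ≤ t.1 ∧ t.1 ≤ Y ∧ 2 ^ (t.1 * u) ≤ p ^ 10 ∧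
      p ^ 10 < 2 ^ (t.2.1 * u) := by
  obtain ⟨hpn, hpp, hp10⟩ := PC1_Rg.mp hp
  have hp0 : p ^ 10 ≠ 0 := pow_ne_zero _ hpp.ne_zero
  set lg := Nat.log 2 (p ^ 10) with hlg
  have h3 : 2 ^ lg ≤ p ^ 10 := Nat.pow_log_le_self 2 hp0
  have h4 : p ^ 10 < 2 ^ (lg + 1) := Nat.lt_pow_succ_log_self (by norm_num) _
  set b := lg / u with hb
  have h5 : b * u ≤ lg := Nat.div_mul_le_self _ _
  have h6 : lg < (b + 1) * u := by
    rw [hb]
    exact Nat.lt_mul_of_div_lt (Nat.lt_succ_self _) (by omega)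
  have hba : a ≤ b := by
    have h7 : a * u ≤ lg := by
      by_contra hcon
      push Not at hcon
      have : (2 : ℕ) ^ (lg + 1) ≤ 2 ^ (a * u) := Nat.pow_le_pow_right (by norm_num) hcon
      omega
    rw [hb]
    exact (Nat.le_div_iff_mul_le (by omega)).mpr h7
  have hbY : b ≤ Y := by
    have h7 : lg < (Y + 1) * u := by
      by_contra hcon
      push Not at hcon
      have h8 : (2 : ℕ) ^ ((Y + 1) * u) ≤ 2 ^ lg := Nat.pow_le_pow_right (by norm_num) hcon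
      have h9 : p ^ 10 < (n + 1) ^ 10 := Nat.pow_lt_pow_left (by omega) (by norm_num)
      omega
    have h8 : b * u < (Y + 1) * u := lt_of_le_of_lt h5 h7
    have h9 : b < Y + 1 := lt_of_mul_lt_mul_right h8 (Nat.zero_le _)
    omega
  obtain ⟨hb1, hb2, hb3⟩ := hbl
  obtain ⟨t, ht, ht1, ht2⟩ := hb3 b (by omega) (by omega)
  refine ⟨t, ht, ?_, by omega, ?_, ?_⟩
  · by_contra hcon
    push Not at hcon
    have := hb2 t ht hcon
    omega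
  · refine le_trans (Nat.pow_le_pow_right (by norm_num) ?_) h3
    exact le_trans (Nat.mul_le_mul_right u ht1) h5
  · refine lt_of_lt_of_le h4 (Nat.pow_le_pow_right (by norm_num) ?_)
    have h7 : (b + 1) * u ≤ t.2.1 * u := Nat.mul_le_mul_right u ht2
    omega

/-- the weight. -/
theorem PC1_wt0 {n p : ℕ} (hn : 128 ≤ n) (hp : p.Prime) (hpn : p ≤ n) : 0 ≤ wt n p := by
  unfold wt
  have hp0 : (0 : ℝ) < p := by exact_mod_cast hp.pos
  have h1 : Real.log p ≤ Real.log ((n : ℝ) + 1) := by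
    apply Real.log_le_log hp0
    have : (p : ℝ) ≤ n := by exact_mod_cast hpn
    linarith
  have h2 : (0 : ℝ) < Real.log ((n : ℝ) + 1) := by
    apply Real.log_pos
    have : (128 : ℝ) ≤ n := by exact_mod_cast hn
    linarith
  have h3 : Real.log p / Real.log ((n : ℝ) + 1) ≤ 1 := (div_le_one h2).mpr h1
  linarith

theorem PC1_wt1 {n p u Y b : ℕ} (hn : 128 ≤ n) (hu : 1 ≤ u) (hp : p.Prime)
    (h2 : (n + 1) ^ 10 ≤ 2 ^ ((Y + 1) * u)) (hb : 2 ^ (b * u) ≤ p ^ 10) :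
    wt n p ≤ ((Y : ℝ) + 1 - b) / (Y + 1) := by
  have hp0 : (0 : ℝ) < p := by exact_mod_cast hp.pos
  have hl2 : 0 < Real.log 2 := Real.log_pos (by norm_num)
  have hn0 : (0 : ℝ) < (n : ℝ) + 1 := by positivity
  have hln : (0 : ℝ) < Real.log ((n : ℝ) + 1) := by
    apply Real.log_pos
    have : (128 : ℝ) ≤ n := by exact_mod_cast hn
    linarith
  have h3 : ((b * u : ℕ) : ℝ) * Real.log 2 ≤ 10 * Real.log p := by
    have h4 : ((2 : ℝ) ^ (b * u)) ≤ (p : ℝ) ^ 10 := by exact_mod_cast hb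
    have h5 := Real.log_le_log (by positivity) h4
    rw [Real.log_pow, Real.log_pow] at h5
    exact_mod_cast h5
  have h4 : 10 * Real.log ((n : ℝ) + 1) ≤ (((Y + 1) * u : ℕ) : ℝ) * Real.log 2 := by
    have h4 : ((n : ℝ) + 1) ^ 10 ≤ (2 : ℝ) ^ ((Y + 1) * u) := by exact_mod_cast h2
    have h5 := Real.log_le_log (by positivity) h4
    rw [Real.log_pow, Real.log_pow] at h5
    exact_mod_cast h5
  have hu0 : (0 : ℝ) < u := by exact_mod_cast hu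
  push_cast at h3 h4
  unfold wt
  have hY0 : (0 : ℝ) < (Y : ℝ) + 1 := by positivity
  have h6 : (b : ℝ) / (Y + 1) ≤ Real.log p / Real.log ((n : ℝ) + 1) := by
    rw [div_le_div_iff₀ hY0 hln]
    -- b * log (n+1) ≤ log p * (Y + 1)
    have h7 : (b : ℝ) * (10 * Real.log ((n : ℝ) + 1)) ≤ b * ((Y + 1) * u * Real.log 2) := by
      gcongr
    have h8 : ((b : ℝ) * u * Real.log 2) * (Y + 1) ≤ (10 * Real.log p) * (Y + 1) := by
      gcongr
    nlinarith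
  have h7 : ((Y : ℝ) + 1 - b) / (Y + 1) = 1 - b / (Y + 1) := by
    field_simp
  rw [h7]
  linarith

/-- the block sum. -/
theorem PC1_M2 {u a Y κ n U : ℕ} {bl : List (ℕ × ℕ × ℕ)}
    (hbl : BlkOK u a bl) (hn : 128 ≤ n) (hu : 1 ≤ u)
    (h2 : (n + 1) ^ 10 ≤ 2 ^ ((Y + 1) * u)) (tp : ℕ → ℕ × ℕ × ℕ)
    (hSAD : SAD_stmt) (h28 : 28 ≤ a * u)
    (htp : ∀ p ∈ Rg n (a * u), tp p ∈ bl ∧ a ≤ (tp p).1 ∧ (tp p).1 ≤ Y ∧
      2 ^ ((tp p).1 * u) ≤ p ^ 10 ∧ p ^ 10 < 2 ^ ((tp p).2.1 * u)) :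
    ∑ p ∈ Rg n (a * u), 1 / (p : ℝ) * wt n p *
      ((dig U (2 * Y - κ - (tp p).2.1) : ℝ) / 2 ^ 40) ≤ M2 U a Y κ bl := by
  classical
  obtain ⟨hb1, -, -⟩ := hbl
  set f : ℕ → (ℕ × ℕ × ℕ) → ℝ := fun p t => if a ≤ t.1 ∧ t.1 ≤ Y then
    (if p ∈ Bl (t.1 * u) (t.2.1 * u) then 1 / (p : ℝ) * (((Y : ℝ) + 1 - t.1) / (Y + 1)) *
      ((dig U (2 * Y - κ - t.2.1) : ℝ) / 2 ^ 40) else 0) else 0 with hf
  have hf0 : ∀ p t, 0 ≤ f p t := by
    intro p t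
    rw [hf]
    dsimp only
    split_ifs with h3 h4
    · have : (t.1 : ℝ) ≤ Y := by exact_mod_cast h3.2
      have h5 : 0 ≤ ((Y : ℝ) + 1 - t.1) := by linarith
      positivity
    · exact le_rfl
    · exact le_rfl
  have h3 : ∑ p ∈ Rg n (a * u), 1 / (p : ℝ) * wt n p *
      ((dig U (2 * Y - κ - (tp p).2.1) : ℝ) / 2 ^ 40) ≤
      ∑ p ∈ Rg n (a * u), (bl.map (f p)).sum := by
    refine Finset.sum_le_sum fun p hp => ?_
    obtain ⟨k1, k2, k3, k4, k5⟩ := htp p hp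
    obtain ⟨hpn, hpp, hp10⟩ := PC1_Rg.mp hp
    have h7 := PC1_ge7 h28 hp10
    have hmem : p ∈ Bl ((tp p).1 * u) ((tp p).2.1 * u) := (hSAD.2.1 _ _ _).mpr ⟨hpp, h7, k4, k5⟩
    have h8 : f p (tp p) ≤ (bl.map (f p)).sum := by
      apply List.single_le_sum
      · intro x hx
        rw [List.mem_map] at hx
        obtain ⟨t, -, rfl⟩ := hx
        exact hf0 p t
      · exact List.mem_map_of_mem k1
    refine le_trans ?_ h8
    rw [hf]
    dsimp only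
    rw [if_pos ⟨k2, k3⟩, if_pos hmem]
    have h9 := PC1_wt1 hn hu hpp h2 k4
    gcongr
  refine h3.trans ?_
  rw [PC1_swap]
  unfold M2
  apply List.sum_le_sum
  intro t ht
  by_cases hc : a ≤ t.1 ∧ t.1 ≤ Y
  · rw [if_pos hc]
    have h4 : ∀ p, f p t = if p ∈ Bl (t.1 * u) (t.2.1 * u) then 1 / (p : ℝ) *
        (((Y : ℝ) + 1 - t.1) / (Y + 1)) * ((dig U (2 * Y - κ - t.2.1) : ℝ) / 2 ^ 40) else 0 := by
      intro p
      rw [hf]
      dsimp only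
      rw [if_pos hc]
    rw [Finset.sum_congr rfl fun p _ => h4 p, ← Finset.sum_filter]
    have h5 : (t.1 : ℝ) ≤ Y := by exact_mod_cast hc.2
    have h6 : 0 ≤ ((Y : ℝ) + 1 - t.1) := by linarith
    have h7 : ∑ p ∈ (Rg n (a * u)).filter (fun p => p ∈ Bl (t.1 * u) (t.2.1 * u)), 1 / (p : ℝ) *
        (((Y : ℝ) + 1 - t.1) / (Y + 1)) * ((dig U (2 * Y - κ - t.2.1) : ℝ) / 2 ^ 40) ≤
        ∑ p ∈ Bl (t.1 * u) (t.2.1 * u), 1 / (p : ℝ) *
        (((Y : ℝ) + 1 - t.1) / (Y + 1)) * ((dig U (2 * Y - κ - t.2.1) : ℝ) / 2 ^ 40) := by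
      apply Finset.sum_le_sum_of_subset_of_nonneg
      · intro p hp
        exact (Finset.mem_filter.mp hp).2
      · intro p _ _
        positivity
    refine h7.trans ?_
    rw [← Finset.sum_mul, ← Finset.sum_mul]
    have h8 : ∑ p ∈ Bl (t.1 * u) (t.2.1 * u), 1 / (p : ℝ) ≤ (t.2.2 : ℝ) / 2 ^ 45 := by
      have h9 := hb1 t ht
      unfold sig at h9
      have h10 : ∑ p ∈ Bl (t.1 * u) (t.2.1 * u), (2 / p : ℝ) =
          2 * ∑ p ∈ Bl (t.1 * u) (t.2.1 * u), 1 / (p : ℝ) := by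
        rw [Finset.mul_sum]
        refine Finset.sum_congr rfl fun p _ => ?_
        ring
      rw [h10] at h9
      have h11 : (t.2.2 : ℝ) / 2 ^ 44 = 2 * ((t.2.2 : ℝ) / 2 ^ 45) := by ring
      rw [h11] at h9
      linarith
    gcongr
  · rw [if_neg hc]
    have h4 : ∀ p, f p t = 0 := by
      intro p
      rw [hf]
      dsimp only
      rw [if_neg hc]
    rw [Finset.sum_congr rfl fun p _ => h4 p, Finset.sum_const_zero]

theorem PC1 (hSAD : SAD_stmt) (hDEN : DEN_stmt) (hXSZ : XSZ_stmt) (hCNT : CNT_stmt)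
    (hSQB : SQB_stmt) : PC1_stmt := by
  classical
  intro u a Y κ L U n bl hu ha haY hY hκ hκY hn h1 h2 hTab hbl hbl2
  have h28 : 28 ≤ a * u := by
    calc 28 ≤ a * 1 := by omega
      _ ≤ a * u := Nat.mul_le_mul_left a hu
  obtain ⟨-, -, hX3⟩ := hXSZ n hn
  have hD := hDEN n (by omega)
  have hX0 : 0 < Xn n := hD.1
  have hV0 : 0 < V (Pr (a * u)) := (hSAD.2.2.2.2.1 (a * u) (a * u)).1
  have hsize := PC1_size hκ hκY h1 hX3 hX0
  set X := Xn n with hX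
  set VP := V (Pr (a * u)) with hVP
  -- the main term
  have hS0 : X * VP * (1 - (dig L (2 * Y - κ) : ℝ) / 2 ^ 40) ≤ (S (An n) (Pr (a * u)) ∅ : ℝ) := by
    have h3 := hTab.1 (2 * Y - κ) (by omega) (An n) X hD ∅ (by simp) (by
      rw [Finset.prod_empty, one_pow, mul_one]
      exact hsize)
    have h4 : g ∅ = 1 := by
      unfold g
      rw [Finset.prod_empty]
    rw [h4, mul_one] at h3
    exact h3
  -- the choice of the blocks
  have hch : ∀ p : ℕ, ∃ t : ℕ × ℕ × ℕ, p ∈ Rg n (a * u) → t ∈ bl ∧ a ≤ t.1 ∧ t.1 ≤ Y ∧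
      2 ^ (t.1 * u) ≤ p ^ 10 ∧ p ^ 10 < 2 ^ (t.2.1 * u) := by
    intro p
    by_cases hp : p ∈ Rg n (a * u)
    · obtain ⟨t, ht, h3⟩ := PC1_blk hu ha hY h2 hbl hp
      exact ⟨t, fun _ => ⟨ht, h3⟩⟩
    · exact ⟨(0, 0, 0), fun h => absurd h hp⟩
  choose tp htp using hch
  -- the terms
  have hSp : ∀ p ∈ Rg n (a * u), (S (An n) (Pr (a * u)) {p} : ℝ) ≤
      X * (2 / p) * VP * (1 + (dig U (2 * Y - κ - (tp p).2.1) : ℝ) / 2 ^ 40) := by
    intro p hp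
    obtain ⟨k1, k2, k3, k4, k5⟩ := htp p hp
    obtain ⟨hpn, hpp, hp10⟩ := PC1_Rg.mp hp
    have h3 := hbl2 (tp p) k1 k2 k3
    have h4 := hTab.2 (2 * Y - κ - (tp p).2.1) (by omega) (by omega) (An n) X hD {p} (by
      intro q hq
      rw [Finset.mem_singleton] at hq
      subst hq
      exact ⟨hpp, hp10⟩) (by
      rw [Finset.prod_singleton]
      have h5 : (p : ℝ) ^ 10 ≤ 2 ^ ((tp p).2.1 * u) := by exact_mod_cast k5.le
      calc (2 : ℝ) ^ ((2 * Y - κ - (tp p).2.1) * u) * (p : ℝ) ^ 10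
          ≤ (2 : ℝ) ^ ((2 * Y - κ - (tp p).2.1) * u) * 2 ^ ((tp p).2.1 * u) := by gcongr
        _ = (2 : ℝ) ^ ((2 * Y - κ) * u) := by
            rw [← pow_add, ← Nat.add_mul, Nat.sub_add_cancel (by omega)]
        _ ≤ X ^ 10 := hsize)
    have h5 : g {p} = 2 / (p : ℝ) := by
      unfold g
      rw [Finset.prod_singleton]
    rw [h5] at h4
    exact h4
  have hsum : 1 / 2 * ∑ p ∈ Rg n (a * u), wt n p * (S (An n) (Pr (a * u)) {p} : ℝ) ≤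
      X * VP * (∑ p ∈ Rg n (a * u), 1 / (p : ℝ) * wt n p + M2 U a Y κ bl) := by
    have h3 : ∑ p ∈ Rg n (a * u), wt n p * (S (An n) (Pr (a * u)) {p} : ℝ) ≤
        ∑ p ∈ Rg n (a * u), (2 * (X * VP)) * (1 / (p : ℝ) * wt n p + 1 / (p : ℝ) * wt n p *
          ((dig U (2 * Y - κ - (tp p).2.1) : ℝ) / 2 ^ 40)) := by
      refine Finset.sum_le_sum fun p hp => ?_
      obtain ⟨hpn, hpp, hp10⟩ := PC1_Rg.mp hp
      have h4 := PC1_wt0 hn hpp hpn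
      calc wt n p * (S (An n) (Pr (a * u)) {p} : ℝ)
          ≤ wt n p * (X * (2 / p) * VP *
            (1 + (dig U (2 * Y - κ - (tp p).2.1) : ℝ) / 2 ^ 40)) := by
            gcongr
            exact hSp p hp
        _ = _ := by ring
    rw [← Finset.mul_sum, Finset.sum_add_distrib] at h3
    have h5 := PC1_M2 (κ := κ) (U := U) hbl hn hu h2 tp hSAD h28 htp
    have h6 : X * VP * (∑ p ∈ Rg n (a * u), 1 / (p : ℝ) * wt n p +
        ∑ p ∈ Rg n (a * u), 1 / (p : ℝ) * wt n p *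
          ((dig U (2 * Y - κ - (tp p).2.1) : ℝ) / 2 ^ 40)) ≤
        X * VP * (∑ p ∈ Rg n (a * u), 1 / (p : ℝ) * wt n p + M2 U a Y κ bl) := by
      have : 0 ≤ X * VP := by positivity
      gcongr
    linarith
  -- the squares
  have hsq : ∑ p ∈ Rg n (a * u),
      ((((An n).filter fun m => p ^ 2 ∣ m ∨ p ^ 2 ∣ m + 6).card : ℕ) : ℝ) ≤
      2 * X * ∑ p ∈ Rg n (a * u), 1 / (p : ℝ) ^ 2 + 2 * n := by
    have h3 : ∑ p ∈ Rg n (a * u),
        ((((An n).filter fun m => p ^ 2 ∣ m ∨ p ^ 2 ∣ m + 6).card : ℕ) : ℝ) ≤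
        ∑ p ∈ Rg n (a * u), (2 * X * (1 / (p : ℝ) ^ 2) + 2) := by
      refine Finset.sum_le_sum fun p hp => ?_
      obtain ⟨hpn, hpp, hp10⟩ := PC1_Rg.mp hp
      refine (hSQB n p (by omega) hpp (PC1_ge7 h28 hp10)).trans (le_of_eq ?_)
      rw [← hX]
      ring
    rw [Finset.sum_add_distrib, ← Finset.mul_sum, Finset.sum_const, nsmul_eq_mul] at h3
    have h4 : ((Rg n (a * u)).card : ℝ) ≤ n := by
      have h5 : (Rg n (a * u)).card ≤ (Finset.Ioc 0 n).card := by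
        apply Finset.card_le_card
        intro p hp
        obtain ⟨hpn, hpp, -⟩ := PC1_Rg.mp hp
        exact Finset.mem_Ioc.mpr ⟨hpp.pos, hpn⟩
      rw [Nat.card_Ioc, Nat.sub_zero] at h5
      exact_mod_cast h5
    linarith
  have hC := hCNT n (a * u) (by omega) h28
  have hfin : X * VP * (1 - (dig L (2 * Y - κ) : ℝ) / 2 ^ 40
      - ∑ p ∈ Rg n (a * u), 1 / (p : ℝ) * wt n p - M2 U a Y κ bl) =
      X * VP * (1 - (dig L (2 * Y - κ) : ℝ) / 2 ^ 40) -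
      X * VP * (∑ p ∈ Rg n (a * u), 1 / (p : ℝ) * wt n p + M2 U a Y κ bl) := by ring
  rw [hfin]
  linarith

end Pool.Agent.SX
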